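import Pool.Agent.H678.Inv.Fc

/-!
# Groups with `(uv)^4 = 1` for all involutions: four involutions, two of them commute

Let `(uv)^4 = 1` for all involutions `u`, `v` of the group `G`.  If `a`, `b`, `c`, `d` are
involutions of `G` and `a`, `b` commute, then `a`, `b`, `c`, `d` generate a finite `2`-group.

The commutators of involutions are calculated with the rules `[[x, z], y] = [[y, z], x]`, which
commutes with `z`, and `[[x, z], [y, z]] = 1`, for commuting involutions `x`, `y` (`xy` is an
involution), and with an exact form of the Jacobi identity (`Pool.Agent.H678.Inv.LJ`).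
-/

set_option autoImplicit false

namespace Pool.Agent.Results.MP_25cc86_al.CommutingGenerators

open Pool.Agent.H678.Inv
open Pool.Agent.W5h59.Bu (LFn LF2 rad rad_lf rad_quot le_rad lf_of_comm)

universe u

variable {G : Type u} [Group G]

theorem e2_of (h : ∀ x y : G, orderOf x = 2 → orderOf y = 2 → (x * y) ^ 4 = 1) : E2 G := by
  intro x y hx hy
  have e : k x y * k x y = (x * y) ^ 4 := by
    simp only [k, pow_succ, pow_zero, one_mul, mul_assoc]
  rw [e]
  by_cases h1 : x = 1
  · rw [h1, one_mul, show (4 : ℕ) = 2 * 2 from rfl, pow_mul, sq y, hy, one_pow]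
  by_cases h2 : y = 1
  · rw [h2, mul_one, show (4 : ℕ) = 2 * 2 from rfl, pow_mul, sq x, hx, one_pow]
  exact h x y (orderOf_eq_prime (by rw [sq]; exact hx) h1)
    (orderOf_eq_prime (by rw [sq]; exact hy) h2)

theorem sq_of {x : G} (h : orderOf x = 2) : x * x = 1 := by
  rw [← sq, ← h]
  exact pow_orderOf_eq_one x

theorem four (H : E2 G) {a b c d : G} (ha : a * a = 1) (hb : b * b = 1) (hc : c * c = 1)
    (hd : d * d = 1) (hab : Commute a b) :
    LF2 (Subgroup.closure ({a, b, c, d} : Set G)) := by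
  set M := Subgroup.closure ({a, b, c, d} : Set G) with hM
  have ma : a ∈ M := Subgroup.subset_closure (by simp)
  have mb : b ∈ M := Subgroup.subset_closure (by simp)
  have mc : c ∈ M := Subgroup.subset_closure (by simp)
  have md : d ∈ M := Subgroup.subset_closure (by simp)
  have H' : E2 M := fun x y hx hy =>
    Subtype.ext (H x.1 y.1 (congrArg Subtype.val hx) (congrArg Subtype.val hy))
  have hcl : Subgroup.closure ({⟨a, ma⟩, ⟨b, mb⟩, ⟨c, mc⟩, ⟨d, md⟩} : Set M) = ⊤ := by
    have h1 : Subgroup.closure ((Subtype.val : M → G) ⁻¹' ({a, b, c, d} : Set G)) = ⊤ :=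
      Subgroup.closure_closure_coe_preimage
    rw [eq_top_iff, ← h1]
    apply Subgroup.closure_mono
    rintro ⟨x, hx⟩ h
    rcases h with h | h | h | h
    · exact Or.inl (Subtype.ext h)
    · exact Or.inr (Or.inl (Subtype.ext h))
    · exact Or.inr (Or.inr (Or.inl (Subtype.ext h)))
    · exact Or.inr (Or.inr (Or.inr (Subtype.ext h)))
  have hr := fin_ab H' (a := ⟨a, ma⟩) (b := ⟨b, mb⟩) (c := ⟨c, mc⟩) (d := ⟨d, md⟩)
    (Subtype.ext ha) (Subtype.ext hb) (Subtype.ext hc) (Subtype.ext hd) (Subtype.ext hab.eq) hcl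
  have h1 : rad M = ⊤ := by
    rw [eq_top_iff, ← hcl, Subgroup.closure_le]
    rintro x (rfl | rfl | rfl | rfl)
    · exact hr.1
    · exact hr.2.1
    · exact hr.2.2.1
    · exact hr.2.2.2
  have h3 := rad_lf M
  rw [h1] at h3
  exact h3.image (Subgroup.topEquiv : (⊤ : Subgroup M) ≃* M).toMonoidHom
    (Subgroup.topEquiv : (⊤ : Subgroup M) ≃* M).surjective

theorem result (G : Type u) [Group G]
    (hP : ∀ x y : G, orderOf x = 2 → orderOf y = 2 → (x * y) ^ 4 = 1)
    (a b c d : G) (ha : orderOf a = 2) (hb : orderOf b = 2) (hc : orderOf c = 2)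
    (hd : orderOf d = 2) (hab : a * b = b * a) :
    Finite (Subgroup.closure ({a, b, c, d} : Set G)) ∧
      IsPGroup 2 (Subgroup.closure ({a, b, c, d} : Set G)) := by
  have h := four (e2_of hP) (sq_of ha) (sq_of hb) (sq_of hc) (sq_of hd) hab
  refine ⟨?_, h.2⟩
  set M := Subgroup.closure ({a, b, c, d} : Set G) with hM
  have h1 : Subgroup.closure ((Subtype.val : M → G) ⁻¹' ({a, b, c, d} : Set G)) = ⊤ :=
    Subgroup.closure_closure_coe_preimage
  have h5 := h.1 ((Subtype.val : M → G) ⁻¹' ({a, b, c, d} : Set G))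
    ((Set.toFinite _).preimage Subtype.val_injective.injOn)
  rw [h1] at h5
  exact Finite.of_equiv _ (Subgroup.topEquiv : (⊤ : Subgroup M) ≃* M).toEquiv

end Pool.Agent.Results.MP_25cc86_al.CommutingGenerators
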