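import Pool.Agent.H678.Inv.G5

/-!
# Five involutions with `(uv)^4 = 1`, at least five of the ten pairs commute

Let `(uv)^4 = 1` for all involutions `u`, `v` of the group `G`.  If `G` is generated by five
involutions and at least five of the ten pairs of these generators commute, then `G` is a finite
`2`-group.  The same holds if four pairs commute which form a path or a cycle.

Every graph with five vertices and at least five edges contains a path with five vertices, a cycle
of length four, or a vertex which is joined to all others and one more edge; in these three cases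
the commutators of involutions are calculated with the rules `[[x, z], y] = [[y, z], x]`, which
commutes with `z`, and `[[x, z], [y, z]] = 1`, for commuting involutions `x`, `y`, and with an exact
form of the Jacobi identity (`Pool.Agent.H678.Inv.LJ`).
-/

set_option autoImplicit false

namespace Pool.Agent.Results.MP_25cc86_al.FiveInvolutions

open Pool.Agent.H678.Inv
open Pool.Agent.W5h59.Bu (LFn LF2 rad rad_lf rad_quot le_rad lf_of_comm)

universe u

theorem e2_of {G : Type u} [Group G]
    (h : ∀ x y : G, orderOf x = 2 → orderOf y = 2 → (x * y) ^ 4 = 1) : E2 G := by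
  intro x y hx hy
  have e : k x y * k x y = (x * y) ^ 4 := by
    simp only [k, pow_succ, pow_zero, one_mul, mul_assoc]
  rw [e]
  by_cases h1 : x = 1
  · rw [h1, one_mul, show (4 : ℕ) = 2 * 2 from rfl, pow_mul, sq y, hy, one_pow]
  by_cases h2 : y = 1
  · rw [h2, mul_one, show (4 : ℕ) = 2 * 2 from rfl, pow_mul, sq x, hx, one_pow]
  exact h x y (orderOf_eq_prime (by rw [sq]; exact hx) h1)
    (orderOf_eq_prime (by rw [sq]; exact hy) h2)

theorem result (G : Type u) [Group G]
    (hP : ∀ x y : G, orderOf x = 2 → orderOf y = 2 → (x * y) ^ 4 = 1)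
    (f : Fin 5 → G) (h2 : ∀ i, orderOf (f i) = 2)
    (hf : Subgroup.closure (Set.range f) = ⊤)
    (hc : (∃ S : Finset (Fin 5 × Fin 5), 5 ≤ S.card ∧
        ∀ p ∈ S, p.1 < p.2 ∧ Commute (f p.1) (f p.2)) ∨
      (Commute (f 0) (f 1) ∧ Commute (f 1) (f 2) ∧ Commute (f 2) (f 3) ∧ Commute (f 3) (f 4)) ∨
      (Commute (f 0) (f 1) ∧ Commute (f 1) (f 2) ∧ Commute (f 2) (f 3) ∧ Commute (f 3) (f 0))) :
    Finite G ∧ IsPGroup 2 G := by
  have hi : ∀ i, f i * f i = 1 := by
    intro i
    rw [← sq, ← h2 i]
    exact pow_orderOf_eq_one (f i)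
  have hcl : ∀ p q r s v : Fin 5,
      (∀ x : Fin 5, x = p ∨ x = q ∨ x = r ∨ x = s ∨ x = v) →
      Subgroup.closure ({f p, f q, f r, f s, f v} : Set G) = ⊤ := by
    intro p q r s v h
    rw [eq_top_iff, ← hf]
    apply Subgroup.closure_mono
    rintro _ ⟨x, rfl⟩
    rcases h x with rfl | rfl | rfl | rfl | rfl <;> simp
  have h : ∀ i, f i ∈ rad G := by
    rcases hc with ⟨S, hS, hc⟩ | ⟨c1, c2, c3, c4⟩ | ⟨c1, c2, c3, c4⟩
    · exact five (e2_of hP) hi hf S hS hc
    · have hr := fin5_P (e2_of hP) (hi 2) (hi 1) (hi 3) (hi 0) (hi 4) c2.symm c3 c1.symm c4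
        (hcl 2 1 3 0 4 (by decide))
      intro i
      fin_cases i
      · exact hr.2.2.2.1
      · exact hr.2.1
      · exact hr.1
      · exact hr.2.2.1
      · exact hr.2.2.2.2
    · have hr := fin5_C (e2_of hP) (hi 0) (hi 1) (hi 3) (hi 2) (hi 4) c1 c4.symm c2 c3.symm
        (hcl 0 1 3 2 4 (by decide))
      intro i
      fin_cases i
      · exact hr.1
      · exact hr.2.1
      · exact hr.2.2.2.1
      · exact hr.2.2.1
      · exact hr.2.2.2.2
  have h1 : rad G = ⊤ := by
    rw [eq_top_iff, ← hf, Subgroup.closure_le]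
    rintro _ ⟨i, rfl⟩
    exact h i
  have h3 := rad_lf G
  rw [h1] at h3
  have h4 : LF2 G := h3.image (Subgroup.topEquiv : (⊤ : Subgroup G) ≃* G).toMonoidHom
    (Subgroup.topEquiv : (⊤ : Subgroup G) ≃* G).surjective
  refine ⟨?_, h4.2⟩
  have h5 := h4.1 (Set.range f) (Set.finite_range f)
  rw [hf] at h5
  exact Finite.of_equiv _ (Subgroup.topEquiv : (⊤ : Subgroup G) ≃* G).toEquiv

end Pool.Agent.Results.MP_25cc86_al.FiveInvolutions
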