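import Mathlib
import Pool.Agent.H381.P4.M

/-!
# `MP_25cc86_al`: groups generated by involutions with `(u v) ^ 4 = 1`, sparse noncommuting graphs

Let `(u v) ^ 4 = 1` for all involutions `u`, `v` of `G`.  The noncommuting graph of a set `S` of
generators with trivial square has the elements of `S` as its vertices, and two of them are joined by
an edge if they do not commute.

**Theorem.** If the noncommuting graph has no cycles of length four and no vertex lies on two different
triangles (for instance, if it is a forest), then `G` is a locally finite `2`-group, and it is finite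
if `S` is finite.

Idea of the proof.  Let `R` be the largest normal locally finite `2`-subgroup of `G`.  If `T` is a set
containing the involution `x`, if each generator of `G` normalizes `T` or commutes with `T` modulo `R`,
and if `x` is in the normal closure of an element which commutes with `T` modulo `R`, then `x` commutes
with its conjugates modulo `R`, hence `x` is in `R` (`mainL`).  There are two lemmas on involutions.
(a) If the noncommuting graph of `a`, `b`, `c`, `d` is contained in the path `a b c d`, then
`[[a, b], c]` commutes with `d`, because `a c` and `b d` are involutions, so that `[a c, b d] ^ 2 = 1`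
(`P4`).  (b) `[x ^ a, x ^ c] = [x, x ^ (a c)]` commutes with `x`, `a`, `c` and with all involutions
which commute with `x` and `c` (`Z`, `Zt`).  Let `l` be a vertex, `a`, `c` the neighbours of `l` on the
triangle of `l` (if there is one), and `B` the set of the other neighbours.  By (a) and (b) the
elements `[l ^ a, l ^ (c b)]`, `b` in the group generated by `B`, are in `R`, so the conjugates of `l`
under the group `L` generated by the neighbours commute modulo `R`.  It follows by (a) that
`[[l, x], y]` is in `R` for commuting neighbours `x`, `y` of `l`, and also for `x = [a, c]` and `y` in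
`B`.  These elements generate, modulo conjugation, the commutators of `l ^ L` with the generators which
commute with `l`.  Hence each vertex is in `R`.
-/

set_option autoImplicit false

namespace Pool.Agent.Results.MP_25cc86_al.SparseNoncommutingGraph

open Pool.Agent.H678.Inv (E2 k)
open Pool.Agent.H381.P4
open Pool.Agent.W5h59.Bu (LFn LF2)

universe u

theorem e2_of {G : Type u} [Group G]
    (h : ∀ x y : G, orderOf x = 2 → orderOf y = 2 → (x * y) ^ 4 = 1) : E2 G := by
  have ord : ∀ x : G, x * x = 1 → x = 1 ∨ orderOf x = 2 := by
    intro x hx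
    by_cases h1 : x = 1
    · exact Or.inl h1
    · exact Or.inr (orderOf_eq_prime (by rw [sq]; exact hx) h1)
  intro x y hx hy
  have e : k x y * k x y = (x * y) ^ 4 := by
    unfold k
    rw [show (4 : ℕ) = 2 + 2 from rfl, pow_add, sq]
  rw [e]
  rcases ord x hx with rfl | ox
  · rw [one_mul, show (4 : ℕ) = 2 * 2 from rfl, pow_mul, sq y, hy, one_pow]
  rcases ord y hy with rfl | oy
  · rw [mul_one, show (4 : ℕ) = 2 * 2 from rfl, pow_mul, sq x, hx, one_pow]
  exact h x y ox oy

theorem fin_of {G : Type u} [Group G] (h : LF2 G) {S : Set G} (hS : S.Finite)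
    (hgen : Subgroup.closure S = ⊤) : Finite G := by
  have h1 := h.1 S hS
  rw [hgen] at h1
  exact Finite.of_equiv _ (Subgroup.topEquiv : (⊤ : Subgroup G) ≃* G).toEquiv

/-- `x` and `y` are joined by an edge of the noncommuting graph -/
def Adj {G : Type u} [Group G] (x y : G) : Prop := x * y ≠ y * x

/-- **Theorem.** -/
theorem result (G : Type u) [Group G]
    (hG : ∀ u v : G, orderOf u = 2 → orderOf v = 2 → (u * v) ^ 4 = 1)
    (S : Set G) (hS : ∀ s ∈ S, s ^ 2 = 1) (hgen : Subgroup.closure S = ⊤)
    -- there are no cycles of length four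
    (quad : ∀ w ∈ S, ∀ x ∈ S, ∀ y ∈ S, ∀ z ∈ S, w ≠ y → x ≠ z →
      ¬ (Adj w x ∧ Adj x y ∧ Adj y z ∧ Adj z w))
    -- the triangles `l a c` and `l a' c'` are equal
    (tri : ∀ l ∈ S, ∀ a ∈ S, ∀ c ∈ S, ∀ a' ∈ S, ∀ c' ∈ S, Adj l a → Adj l c → Adj a c →
      Adj l a' → Adj l c' → Adj a' c' → ({a', c'} : Set G) = {a, c}) :
    (∀ T : Set G, T.Finite → Finite (Subgroup.closure T)) ∧ (∀ x : G, ∃ n : ℕ, x ^ 2 ^ n = 1) ∧
      (S.Finite → Finite G) := by
  have adj : ∀ {x y : G}, ¬ Commute x y → Adj y x := fun h e => h e.symm
  have adj' : ∀ {x y : G}, ¬ Commute x y → Adj x y := fun h e => h e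
  have h5 : LF2 G := by
    refine disj (e2_of hG) (fun s hs => by rw [← sq]; exact hS s hs) ?_ ?_ hgen
    · intro w hw x hx y hy z hz h1 h2
      by_contra hcon
      push Not at hcon
      obtain ⟨c1, c2, c3, c4⟩ := hcon
      exact quad w hw x hx y hy z hz h1 h2 ⟨adj' c1, adj' c2, adj' c3, adj' c4⟩
    · intro l hl a ha c hc a' ha' c' hc' c1 c2 c3 c4 c5 c6
      have h := tri l hl a ha c hc a' ha' c' hc' (adj c1) (adj c2) (adj' c3) (adj c4) (adj c5)
        (adj' c6)
      have h1 : a' ∈ ({a, c} : Set G) := h ▸ Set.mem_insert a' {c'}
      rcases h1 with h1 | h1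
      · exact Or.inl h1
      · exact Or.inr h1
  exact ⟨h5.1, fun x => h5.2 x, fun hf => fin_of h5 hf hgen⟩

end Pool.Agent.Results.MP_25cc86_al.SparseNoncommutingGraph
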